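import Pool.Agent.Q211.Race.Poly

set_option autoImplicit false

namespace Pool.Agent.Q211.Race

/-- the determinant -/
def Dl (p q P Q : ℝ) : ℝ := (1 - (p - q) * (P - Q)) ^ 2 - p * P

theorem alg (u v v' w w' y' p q P Q : ℝ)
    (e1 : w' - 1 = (v' - 1) - Q * (u - 1) - (P - Q) * v)
    (e1' : w - 1 = (v - 1) - q * (u - 1) - (p - q) * v')
    (e2 : v - 2 = (u - 2) - q * (v' - 1) - (p - q) * w')
    (e2' : v' - 2 = (u - 2) - Q * (v - 1) - (P - Q) * w)
    (e3 : u - 3 = (v' - 2) - q * (w' - 1) - (p - q) * y')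
    (e0' : y' = w' - Q * v' - (P - Q) * u)
    (hD : Dl p q P Q ≠ 0) :
    (v' - v) * DU p q P Q = Np p q P Q := by
  obtain ⟨r, hr⟩ : ∃ r, r = p - q := ⟨_, rfl⟩
  obtain ⟨R, hR⟩ : ∃ R, R = P - Q := ⟨_, rfl⟩
  rw [← hr] at e1' e2 e3
  rw [← hR] at e1 e2' e0'
  have R1 : v * (1 - r * R) + p * v' = (u - 1) * (1 + r * Q) + 1 + q := by
    rw [hr] at e2 ⊢
    linear_combination e2 - (p - q) * e1
  have R2 : v' * (1 - r * R) + P * v = (u - 1) * (1 + R * q) + 1 + Q := by
    rw [hR] at e2' ⊢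
    linear_combination e2' - (P - Q) * e1'
  have R3 : (1 + r * Q - p) * v' + p * R * v = (u - 1) * (1 - p * Q - r * R) - q - r * R := by
    rw [hr] at e3 ⊢
    linear_combination -e3 + (p - q) * e0' + p * e1
  have h1 : (v' - v) * Dl p q P Q = (u - 1) * ((1 - r * R) * ((1 + R * q) - (1 + r * Q)) +
      p * (1 + R * q) - P * (1 + r * Q)) + ((1 - r * R) * (Q - q) + p * (1 + Q) - P * (1 + q)) := by
    unfold Dl
    rw [← hr, ← hR]
    linear_combination ((1 - r * R) + p) * R2 - ((1 - r * R) + P) * R1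
  have h2 : Dl p q P Q * (q + r * R) + (1 + r * Q - p) * ((1 - r * R) * (1 + Q) - P * (1 + q)) +
      p * R * ((1 - r * R) * (1 + q) - p * (1 + Q)) =
      (u - 1) * (Dl p q P Q * ((1 - r * R) - p * Q) -
        (1 + r * Q - p) * ((1 - r * R) * (1 + R * q) - P * (1 + r * Q)) -
        p * R * ((1 - r * R) * (1 + r * Q) - p * (1 + R * q))) := by
    unfold Dl
    rw [← hr, ← hR]
    linear_combination ((1 - r * R) ^ 2 - p * P) * R3 -
      (1 + r * Q - p) * ((1 - r * R) * R2 - P * R1) - p * R * ((1 - r * R) * R1 - p * R2)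
  have h3 : (v' - v) * DU p q P Q * Dl p q P Q = Np p q P Q * Dl p q P Q := by
    have hDU : Dl p q P Q * ((1 - r * R) - p * Q) -
        (1 + r * Q - p) * ((1 - r * R) * (1 + R * q) - P * (1 + r * Q)) -
        p * R * ((1 - r * R) * (1 + r * Q) - p * (1 + R * q)) = DU p q P Q := by
      unfold Dl DU
      rw [hr, hR]
      ring
    rw [hDU] at h2
    have hNp : (Dl p q P Q * (q + r * R) +
        (1 + r * Q - p) * ((1 - r * R) * (1 + Q) - P * (1 + q)) +
        p * R * ((1 - r * R) * (1 + q) - p * (1 + Q))) *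
        ((1 - r * R) * ((1 + R * q) - (1 + r * Q)) + p * (1 + R * q) - P * (1 + r * Q)) +
        DU p q P Q * ((1 - r * R) * (Q - q) + p * (1 + Q) - P * (1 + q)) =
        Np p q P Q * Dl p q P Q := by
      unfold Dl DU Np
      rw [hr, hR]
      ring
    rw [← hNp, h2]
    linear_combination (DU p q P Q) * h1
  exact mul_right_cancel₀ hD h3

end Pool.Agent.Q211.Race
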