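import Pool.Agent.Q211.Race.Surv

set_option autoImplicit false
open MeasureTheory ProbabilityTheory Finset Filter Topology
open scoped ENNReal

namespace Pool.Agent.Q211.Race

variable {s : ℕ}

theorem tau_eq {k : ℕ} (A : Fin k → Fin s) (x : ℕ → Fin s) (n : ℕ) (h : occ A x n)
    (h' : ∀ m < n, ¬ occ A x m) : tau A x = n := by
  refine le_antisymm (sInf_le ⟨n, rfl, h⟩) (le_sInf ?_)
  rintro _ ⟨m, rfl, hm⟩
  by_contra hc
  push Not at hc
  exact h' m (by exact_mod_cast hc) hm

theorem tau_top {k : ℕ} (A : Fin k → Fin s) (x : ℕ → Fin s) (h : ∀ m, ¬ occ A x m) :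
    tau A x = ⊤ := by
  unfold tau
  rw [sInf_eq_top]
  rintro _ ⟨m, rfl, hm⟩
  exact absurd hm (h m)

theorem tau_cases {k : ℕ} (hk : 0 < k) (A : Fin k → Fin s) (x : ℕ → Fin s) :
    (∃ n, x ∈ Tv A n ∧ tau A x = ((n + 1 : ℕ) : ℕ∞)) ∨ ((∀ n, x ∈ Ev A n) ∧ tau A x = ⊤) := by
  by_cases h : ∃ m, occ A x m
  · left
    classical
    have hm := Nat.find_spec h
    have hpos : 0 < Nat.find h := lt_of_lt_of_le hk hm.1
    obtain ⟨n, hn⟩ : ∃ n, Nat.find h = n + 1 := ⟨Nat.find h - 1, by omega⟩
    rw [hn] at hm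
    have hmin : ∀ m < n + 1, ¬ occ A x m := fun m hm => Nat.find_min h (by rw [hn]; exact hm)
    exact ⟨n, (mem_Tv A n x).mpr ⟨fun m hm => hmin m (by omega), hm⟩, tau_eq A x _ hm hmin⟩
  · right
    push Not at h
    exact ⟨fun n m _ => h m, tau_top A x h⟩

theorem tau_of_mem {k : ℕ} (A : Fin k → Fin s) (x : ℕ → Fin s) (n : ℕ) (h : x ∈ Tv A n) :
    tau A x = ((n + 1 : ℕ) : ℕ∞) := by
  rw [mem_Tv] at h
  exact tau_eq A x _ h.2 fun m hm => h.1 m (by omega)

theorem lt_tau {k : ℕ} (A : Fin k → Fin s) (x : ℕ → Fin s) (n : ℕ) (h : x ∈ Ev A n) :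
    ((n : ℕ) : ℕ∞) < tau A x := by
  have : ((n + 1 : ℕ) : ℕ∞) ≤ tau A x := by
    refine le_sInf ?_
    rintro _ ⟨m, rfl, hm⟩
    by_contra hc
    push Not at hc
    have : m < n + 1 := by exact_mod_cast hc
    exact h m (by omega) hm
  refine lt_of_lt_of_le ?_ this
  exact_mod_cast Nat.lt_succ_self n

theorem hasSum_real {α : Type*} [MeasurableSpace α] (μ : Measure α) [IsFiniteMeasure μ]
    (f : ℕ → Set α) (hd : Pairwise (Function.onFun Disjoint f)) (hm : ∀ n, MeasurableSet (f n)) :
    HasSum (fun n => μ.real (f n)) (μ.real (⋃ n, f n)) := by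
  have h1 := measure_iUnion (μ := μ) hd hm
  have h2 : ∑' n, μ (f n) ≠ ∞ := by
    rw [← h1]
    exact measure_ne_top _ _
  have h3 := ENNReal.hasSum_toReal h2
  rw [← ENNReal.tsum_toReal_eq (fun n => measure_ne_top _ _), ← h1] at h3
  exact h3

theorem race_eq {k : ℕ} (hk : 0 < k) (p : PMF (Fin s)) (A B : Fin k → Fin s)
    (hA : Summable (surv p A)) (_hB : Summable (surv p B)) :
    race p A B = 1 / 2 + 1 / 2 * ((∑' n, surv p A n * surv p B (n + 1)) -
      ∑' n, surv p A (n + 1) * surv p B n) := by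
  set μ := source p with hμ
  have hsA0 : surv p A 0 = 1 := by
    have : Ev A 0 = Set.univ := by
      ext x
      simp only [Set.mem_univ, iff_true]
      intro m hm ho
      have := ho.1
      omega
    rw [surv_def, this]
    simp
  have hsB0 : surv p B 0 = 1 := by
    have : Ev B 0 = Set.univ := by
      ext x
      simp only [Set.mem_univ, iff_true]
      intro m hm ho
      have := ho.1
      omega
    rw [surv_def, this]
    simp
  have e1 : {z : (ℕ → Fin s) × (ℕ → Fin s) | tau A z.1 < tau B z.2} =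
      ⋃ n, Tv A n ×ˢ Ev B (n + 1) := by
    ext z
    simp only [Set.mem_ofPred_eq, Set.mem_iUnion, Set.mem_prod]
    constructor
    · intro h
      rcases tau_cases hk A z.1 with ⟨n, hn, hn2⟩ | ⟨_, hn2⟩
      · refine ⟨n, hn, ?_⟩
        intro m hm ho
        rw [hn2] at h
        have : tau B z.2 ≤ ((m : ℕ) : ℕ∞) := sInf_le ⟨m, rfl, ho⟩
        have h2 : ((n + 1 : ℕ) : ℕ∞) < ((m : ℕ) : ℕ∞) := lt_of_lt_of_le h this
        have : n + 1 < m := by exact_mod_cast h2
        omega
      · rw [hn2] at h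
        exact absurd h (not_lt.mpr le_top)
    · rintro ⟨n, h1, h2⟩
      rw [tau_of_mem A z.1 n h1]
      exact lt_tau B z.2 (n + 1) h2
  have e2 : {z : (ℕ → Fin s) × (ℕ → Fin s) | tau A z.1 = tau B z.2} =
      (⋃ n, Tv A n ×ˢ Tv B n) ∪ ((⋂ n, Ev A n) ×ˢ (⋂ n, Ev B n)) := by
    ext z
    simp only [Set.mem_ofPred_eq, Set.mem_union, Set.mem_iUnion, Set.mem_prod, Set.mem_iInter]
    constructor
    · intro h
      rcases tau_cases hk A z.1 with ⟨n, hn, hn2⟩ | ⟨hn, hn2⟩
      · left
        rcases tau_cases hk B z.2 with ⟨m, hm, hm2⟩ | ⟨hm, hm2⟩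
        · rw [hn2, hm2] at h
          have : n + 1 = m + 1 := by exact_mod_cast h
          have : n = m := by omega
          subst this
          exact ⟨n, hn, hm⟩
        · rw [hn2, hm2] at h
          exact absurd h (ENat.natCast_ne_top _)
      · right
        rcases tau_cases hk B z.2 with ⟨m, hm, hm2⟩ | ⟨hm, hm2⟩
        · rw [hn2, hm2] at h
          exact absurd h.symm (ENat.natCast_ne_top _)
        · exact ⟨hn, hm⟩
    · rintro (⟨n, h1, h2⟩ | ⟨h1, h2⟩)
      · rw [tau_of_mem A z.1 n h1, tau_of_mem B z.2 n h2]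
      · rw [tau_top A z.1 (fun m => h1 m m le_rfl), tau_top B z.2 (fun m => h2 m m le_rfl)]
  have hTd : ∀ (C : Fin k → Fin s) (i j : ℕ), i < j → Disjoint (Tv C i) (Tv C j) := by
    intro C i j hij
    rw [Set.disjoint_left]
    intro x hx hx2
    exact ((mem_Tv C j x).mp hx2).1 (i + 1) (by omega) ((mem_Tv C i x).mp hx).2
  have hTd' : ∀ (C : Fin k → Fin s) (i j : ℕ), i ≠ j → Disjoint (Tv C i) (Tv C j) := by
    intro C i j hij
    rcases lt_or_gt_of_ne hij with h | h
    · exact hTd C i j h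
    · exact (hTd C j i h).symm
  have hs1 : HasSum (fun n => (surv p A n - surv p A (n + 1)) * surv p B (n + 1))
      ((μ.prod μ).real {z | tau A z.1 < tau B z.2}) := by
    have := hasSum_real (μ.prod μ) (fun n => Tv A n ×ˢ Ev B (n + 1))
      (fun i j hij => Set.Disjoint.set_prod_left (hTd' A i j hij) _ _)
      (fun n => (Tv_meas A n).prod (Ev_meas B (n + 1)))
    rw [← e1] at this
    refine this.congr_fun ?_
    intro n
    rw [measureReal_prod_prod, Tv_prob]
    rfl
  have hnull : (μ.prod μ).real ((⋂ n, Ev A n) ×ˢ (⋂ n, Ev B n)) = 0 := by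
    rw [measureReal_prod_prod]
    have : μ.real (⋂ n, Ev A n) = 0 := by
      refine le_antisymm ?_ measureReal_nonneg
      refine ge_of_tendsto' hA.tendsto_atTop_zero fun n => ?_
      exact measureReal_mono (Set.iInter_subset _ n)
    rw [this, zero_mul]
  have hs2 : HasSum (fun n => (surv p A n - surv p A (n + 1)) * (surv p B n - surv p B (n + 1)))
      ((μ.prod μ).real {z | tau A z.1 = tau B z.2}) := by
    have := hasSum_real (μ.prod μ) (fun n => Tv A n ×ˢ Tv B n)
      (fun i j hij => Set.Disjoint.set_prod_left (hTd' A i j hij) _ _)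
      (fun n => (Tv_meas A n).prod (Tv_meas B n))
    have hle : (μ.prod μ).real {z | tau A z.1 = tau B z.2} =
        (μ.prod μ).real (⋃ n, Tv A n ×ˢ Tv B n) := by
      rw [e2]
      refine le_antisymm ?_ (measureReal_mono Set.subset_union_left)
      refine (measureReal_union_le _ _).trans ?_
      rw [hnull, add_zero]
    rw [hle]
    refine this.congr_fun ?_
    intro n
    rw [measureReal_prod_prod, Tv_prob, Tv_prob]
  have hb : ∀ (f g : ℕ → ℝ), (∀ n, 0 ≤ f n) → (∀ n, 0 ≤ g n) → (∀ n, g n ≤ 1) → Summable f →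
      Summable (fun n => f n * g n) := by
    intro f g hf hg hg1 hs
    refine Summable.of_nonneg_of_le (fun n => mul_nonneg (hf n) (hg n)) (fun n => ?_) hs
    have := hf n
    have := hg1 n
    nlinarith
  have hA1 : Summable (fun n => surv p A (n + 1)) := (summable_nat_add_iff 1).mpr hA
  have hu : Summable (fun n => surv p A n * surv p B n) :=
    hb _ _ (surv_nonneg p A) (surv_nonneg p B) (surv_le_one p B) hA
  have hv' : Summable (fun n => surv p A n * surv p B (n + 1)) :=
    hb _ _ (surv_nonneg p A) (fun n => surv_nonneg p B _) (fun n => surv_le_one p B _) hA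
  have hv : Summable (fun n => surv p A (n + 1) * surv p B n) :=
    hb _ _ (fun n => surv_nonneg p A _) (surv_nonneg p B) (surv_le_one p B) hA1
  have hu1 : Summable (fun n => surv p A (n + 1) * surv p B (n + 1)) :=
    hb _ _ (fun n => surv_nonneg p A _) (fun n => surv_nonneg p B _)
      (fun n => surv_le_one p B _) hA1
  have hu0 := hu.tsum_eq_zero_add
  rw [hsA0, hsB0, one_mul] at hu0
  have r1 : race p A B = (∑' n, (surv p A n - surv p A (n + 1)) * surv p B (n + 1)) +
      1 / 2 * ∑' n, (surv p A n - surv p A (n + 1)) * (surv p B n - surv p B (n + 1)) := by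
    unfold race
    rw [hs1.tsum_eq, hs2.tsum_eq]
  have r2 : (∑' n, (surv p A n - surv p A (n + 1)) * surv p B (n + 1)) =
      (∑' n, surv p A n * surv p B (n + 1)) - ∑' n, surv p A (n + 1) * surv p B (n + 1) := by
    rw [← hv'.tsum_sub hu1]
    exact tsum_congr fun n => by ring
  have r3 : (∑' n, (surv p A n - surv p A (n + 1)) * (surv p B n - surv p B (n + 1))) =
      (∑' n, surv p A n * surv p B n) - (∑' n, surv p A n * surv p B (n + 1)) -
      (∑' n, surv p A (n + 1) * surv p B n) + ∑' n, surv p A (n + 1) * surv p B (n + 1) := by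
    rw [← hu.tsum_sub hv', ← (hu.sub hv').tsum_sub hv, ← ((hu.sub hv').sub hv).tsum_add hu1]
    exact tsum_congr fun n => by ring
  rw [r1, r2, r3, hu0]
  ring

end Pool.Agent.Q211.Race
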