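import Pool.Agent.Q211.Race.Alg
import Pool.Agent.Q211.Race.Formula

set_option autoImplicit false
open MeasureTheory ProbabilityTheory Finset Filter Topology
open scoped ENNReal

namespace Pool.Agent.Q211.Race

/-- the linear relations between the lagged sums -/
theorem seq_formula (S T : ℕ → ℝ) (p q P Q : ℝ) (hS0 : ∀ n, 0 ≤ S n) (hT0 : ∀ n, 0 ≤ T n)
    (hT1 : ∀ n, T n ≤ 1) (hS : Summable S)
    (hS3 : ∀ n < 3, S n = 1) (hT3 : ∀ n < 3, T n = 1)
    (hSr : ∀ n, S (n + 3) = S (n + 2) - q * S (n + 1) - (p - q) * S n)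
    (hTr : ∀ n, T (n + 3) = T (n + 2) - Q * T (n + 1) - (P - Q) * T n)
    (hD : Dl p q P Q ≠ 0) :
    ((∑' n, S n * T (n + 1)) - ∑' n, S (n + 1) * T n) * DU p q P Q = Np p q P Q := by
  set X : ℕ → ℕ → ℝ := fun i j => ∑' n, S (n + i) * T (n + j) with hX
  have hsum : ∀ i j, Summable (fun n => S (n + i) * T (n + j)) := by
    intro i j
    refine Summable.of_nonneg_of_le (fun n => mul_nonneg (hS0 _) (hT0 _)) (fun n => ?_)
      ((summable_nat_add_iff i).mpr hS)
    have h1 := hS0 (n + i)
    have h2 := hT1 (n + j)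
    nlinarith
  have hshift : ∀ i j, X (i + 1) (j + 1) = X i j - S i * T j := by
    intro i j
    have := (hsum i j).tsum_eq_zero_add
    simp only [hX]
    rw [this]
    simp only [zero_add]
    have e : ∀ n, S (n + 1 + i) * T (n + 1 + j) = S (n + (i + 1)) * T (n + (j + 1)) := by
      intro n
      rw [show n + 1 + i = n + (i + 1) by ring, show n + 1 + j = n + (j + 1) by ring]
    simp_rw [e]
    ring
  have hrS : ∀ i j, X (i + 3) j = X (i + 2) j - q * X (i + 1) j - (p - q) * X i j := by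
    intro i j
    simp only [hX]
    rw [← tsum_mul_left, ← tsum_mul_left,
      ← (hsum (i + 2) j).tsum_sub ((hsum (i + 1) j).mul_left q),
      ← ((hsum (i + 2) j).sub ((hsum (i + 1) j).mul_left q)).tsum_sub
        ((hsum i j).mul_left (p - q))]
    refine tsum_congr fun n => ?_
    have := hSr (n + i)
    rw [show n + (i + 3) = n + i + 3 by ring, show n + (i + 2) = n + i + 2 by ring,
      show n + (i + 1) = n + i + 1 by ring, this]
    ring
  have hrT : ∀ i j, X i (j + 3) = X i (j + 2) - Q * X i (j + 1) - (P - Q) * X i j := by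
    intro i j
    simp only [hX]
    rw [← tsum_mul_left, ← tsum_mul_left,
      ← (hsum i (j + 2)).tsum_sub ((hsum i (j + 1)).mul_left Q),
      ← ((hsum i (j + 2)).sub ((hsum i (j + 1)).mul_left Q)).tsum_sub
        ((hsum i j).mul_left (P - Q))]
    refine tsum_congr fun n => ?_
    have := hTr (n + j)
    rw [show n + (j + 3) = n + j + 3 by ring, show n + (j + 2) = n + j + 2 by ring,
      show n + (j + 1) = n + j + 1 by ring, this]
    ring
  have x11 := hshift 0 0
  have x22 := hshift 1 1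
  have x33 := hshift 2 2
  have x21 := hshift 1 0
  have x32 := hshift 2 1
  have x12 := hshift 0 1
  have x23 := hshift 1 2
  have x31 := hshift 2 0
  have x13 := hshift 0 2
  rw [hS3 0 (by norm_num), hT3 0 (by norm_num)] at x11
  rw [hS3 1 (by norm_num), hT3 1 (by norm_num)] at x22
  rw [hS3 2 (by norm_num), hT3 2 (by norm_num)] at x33
  rw [hS3 1 (by norm_num), hT3 0 (by norm_num)] at x21
  rw [hS3 2 (by norm_num), hT3 1 (by norm_num)] at x32
  rw [hS3 0 (by norm_num), hT3 1 (by norm_num)] at x12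
  rw [hS3 1 (by norm_num), hT3 2 (by norm_num)] at x23
  rw [hS3 2 (by norm_num), hT3 0 (by norm_num)] at x31
  rw [hS3 0 (by norm_num), hT3 2 (by norm_num)] at x13
  norm_num at x11 x22 x33 x21 x32 x12 x23 x31 x13
  have r1 := hrT 1 0
  have r1' := hrS 0 1
  have r2 := hrS 0 2
  have r2' := hrT 2 0
  have r3 := hrS 0 3
  have r0 := hrT 0 0
  norm_num at r1 r1' r2 r2' r3 r0
  have := alg (X 0 0) (X 1 0) (X 0 1) (X 2 0) (X 0 2) (X 0 3) p q P Q
    (by linear_combination r1 - x13 + x12 - Q * x11)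
    (by linear_combination r1' - x31 + x21 - q * x11)
    (by linear_combination r2 - x32 - x21 + x22 + x11 - q * x12)
    (by linear_combination r2' - x23 - x12 + x22 + x11 - Q * x21)
    (by linear_combination r3 - x33 - x22 - x11 + x23 + x12 - q * x13)
    r0 hD
  simpa [hX] using this

variable {s : ℕ}

theorem race_formula (p : PMF (Fin s)) (a b c d : Fin s) (hab : a ≠ b) (hcd : c ≠ d)
    (ha : 0 < (p a).toReal) (hb : 0 < (p b).toReal) (hc : 0 < (p c).toReal)
    (hd : 0 < (p d).toReal)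
    (hD : Dl ((p a).toReal ^ 2 * (p b).toReal) ((p a).toReal * (p b).toReal)
      ((p c).toReal ^ 2 * (p d).toReal) ((p c).toReal * (p d).toReal) ≠ 0) :
    (2 * race p (wd a b) (wd c d) - 1) *
      DU ((p a).toReal ^ 2 * (p b).toReal) ((p a).toReal * (p b).toReal)
        ((p c).toReal ^ 2 * (p d).toReal) ((p c).toReal * (p d).toReal) =
      Np ((p a).toReal ^ 2 * (p b).toReal) ((p a).toReal * (p b).toReal)
        ((p c).toReal ^ 2 * (p d).toReal) ((p c).toReal * (p d).toReal) := by
  have hA := surv_summable p a b ha hb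
  have hB := surv_summable p c d hc hd
  have h1 := race_eq (by norm_num) p (wd a b) (wd c d) hA hB
  have h2 := seq_formula (surv p (wd a b)) (surv p (wd c d)) _ _ _ _
    (surv_nonneg p _) (surv_nonneg p _) (surv_le_one p _) hA
    (fun n hn => surv_small p a b n hn) (fun n hn => surv_small p c d n hn)
    (fun n => surv_rec p a b hab n) (fun n => surv_rec p c d hcd n) hD
  rw [← h2, h1]
  ring

theorem arc_of (p : PMF (Fin s)) (a b c d : Fin s) (hab : a ≠ b) (hcd : c ≠ d)
    (ha : 0 < (p a).toReal) (hb : 0 < (p b).toReal) (hc : 0 < (p c).toReal)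
    (hd : 0 < (p d).toReal) (P1 Q1 P2 Q2 : ℝ)
    (e1 : (p a).toReal ^ 2 * (p b).toReal = P1) (e2 : (p a).toReal * (p b).toReal = Q1)
    (e3 : (p c).toReal ^ 2 * (p d).toReal = P2) (e4 : (p c).toReal * (p d).toReal = Q2)
    (hD : Dl P1 Q1 P2 Q2 ≠ 0) (hDU : 0 < DU P1 Q1 P2 Q2) (hN : 0 < Np P1 Q1 P2 Q2) :
    Arc p (wd a b) (wd c d) := by
  have h := race_formula p a b c d hab hcd ha hb hc hd (by rw [e1, e2, e3, e4]; exact hD)
  rw [e1, e2, e3, e4] at h
  unfold Arc
  by_contra hcon
  push Not at hcon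
  have : (2 * race p (wd a b) (wd c d) - 1) * DU P1 Q1 P2 Q2 ≤ 0 :=
    mul_nonpos_of_nonpos_of_nonneg (by linarith) hDU.le
  linarith

theorem Np_anti (p q P Q : ℝ) : Np P Q p q = -Np p q P Q := by
  unfold Np
  ring

end Pool.Agent.Q211.Race
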