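import Mathlib

set_option autoImplicit false
open MeasureTheory ProbabilityTheory Finset
open scoped ENNReal

namespace Pool.Agent.Q211.Race

variable {s : ℕ}

/-- the last `k` of the first `n` letters of `x` are `A` (the letters are `x 0, x 1, …`) -/
def occ {k : ℕ} (A : Fin k → Fin s) (x : ℕ → Fin s) (n : ℕ) : Prop :=
  k ≤ n ∧ ∀ j : Fin k, x (n - k + j) = A j

/-- the waiting time of the word `A` -/
noncomputable def tau {k : ℕ} (A : Fin k → Fin s) (x : ℕ → Fin s) : ℕ∞ :=
  sInf {m | ∃ n : ℕ, m = n ∧ occ A x n}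

/-- the i.i.d. source with law `p` -/
noncomputable def source (p : PMF (Fin s)) : Measure (ℕ → Fin s) :=
  Measure.infinitePi fun _ => p.toMeasure

instance (p : PMF (Fin s)) : IsProbabilityMeasure (source p) := by
  unfold source
  infer_instance

/-- `Pr(A > B)`: the probability that `A` occurs before `B` in independent sources, ties being
broken by a fair coin -/
noncomputable def race {k : ℕ} (p : PMF (Fin s)) (A B : Fin k → Fin s) : ℝ :=
  ((source p).prod (source p)).real {z | tau A z.1 < tau B z.2} +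
    1 / 2 * ((source p).prod (source p)).real {z | tau A z.1 = tau B z.2}

/-- the head-to-head relation -/
def Arc {k : ℕ} (p : PMF (Fin s)) (A B : Fin k → Fin s) : Prop := 1 / 2 < race p A B

/-- Q1: for all `s, k ≥ 2` the head-to-head relation near the uniform law has no directed
3-cycle. -/
def Q1 : Prop := ∀ s k : ℕ, 2 ≤ s → 2 ≤ k → ∃ ε : ℝ, 0 < ε ∧ ∀ p : PMF (Fin s),
  (∀ i, |(p i).toReal - 1 / s| < ε) →
    ¬ ∃ A B C : Fin k → Fin s, Arc p A B ∧ Arc p B C ∧ Arc p C A

/-- survival probabilities -/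
noncomputable def surv {k : ℕ} (p : PMF (Fin s)) (A : Fin k → Fin s) (n : ℕ) : ℝ :=
  (source p).real {x | ∀ m ≤ n, ¬ occ A x m}

theorem meas_fin (n : ℕ) (E : Set (ℕ → Fin s))
    (hE : ∀ x y : ℕ → Fin s, (∀ i < n, x i = y i) → x ∈ E → y ∈ E) : 
    ∃ E' : Set ((i : range n) → Fin s), E = (fun x (i : range n) => x i) ⁻¹' E' := by
  refine ⟨(fun x (i : range n) => x i) '' E, ?_⟩
  ext y
  constructor
  · intro hy
    exact ⟨y, hy, rfl⟩
  · rintro ⟨x, hx, hxy⟩
    refine hE x y (fun i hi => ?_) hx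
    exact congrFun hxy ⟨i, mem_range.mpr hi⟩

theorem meas_ico (n m : ℕ) (E : Set (ℕ → Fin s))
    (hE : ∀ x y : ℕ → Fin s, (∀ i, n ≤ i → i < m → x i = y i) → x ∈ E → y ∈ E) :
    ∃ E' : Set ((i : Ico n m) → Fin s), E = (fun x (i : Ico n m) => x i) ⁻¹' E' := by
  refine ⟨(fun x (i : Ico n m) => x i) '' E, ?_⟩
  ext y
  constructor
  · intro hy
    exact ⟨y, hy, rfl⟩
  · rintro ⟨x, hx, hxy⟩
    refine hE x y (fun i hi hi2 => ?_) hx
    exact congrFun hxy ⟨i, mem_Ico.mpr ⟨hi, hi2⟩⟩

theorem measurable_of_fin (n : ℕ) (E : Set (ℕ → Fin s))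
    (hE : ∀ x y : ℕ → Fin s, (∀ i < n, x i = y i) → x ∈ E → y ∈ E) : MeasurableSet E := by
  obtain ⟨E', rfl⟩ := meas_fin n E hE
  exact (by fun_prop : Measurable (fun (x : ℕ → Fin s) (i : range n) => x i))
    (Set.to_countable E').measurableSet

theorem indep_ev (p : PMF (Fin s)) (n m : ℕ) (E F : Set (ℕ → Fin s))
    (hE : ∀ x y : ℕ → Fin s, (∀ i < n, x i = y i) → x ∈ E → y ∈ E)
    (hF : ∀ x y : ℕ → Fin s, (∀ i, n ≤ i → i < m → x i = y i) → x ∈ F → y ∈ F) :
    (source p).real (E ∩ F) = (source p).real E * (source p).real F := by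
  obtain ⟨E', rfl⟩ := meas_fin n E hE
  obtain ⟨F', rfl⟩ := meas_ico n m F hF
  have h1 : iIndepFun (fun (i : ℕ) (x : ℕ → Fin s) => x i) (source p) := by
    have := iIndepFun_infinitePi (P := fun _ : ℕ => p.toMeasure)
      (X := fun _ (a : Fin s) => a) (fun _ => measurable_id)
    exact this
  have h2 := h1.indepFun_finset (range n) (Ico n m)
    (by
      rw [Finset.disjoint_left]
      intro i hi hi2
      rw [mem_range] at hi
      rw [mem_Ico] at hi2
      omega) (fun i => measurable_pi_apply i)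
  have h3 := h2.measure_inter_preimage_eq_mul _ _ (Set.to_countable E').measurableSet
    (Set.to_countable F').measurableSet
  simp only [Measure.real]
  rw [h3, ENNReal.toReal_mul]

/-- the probability of given letters at given places -/
theorem prob_letters (p : PMF (Fin s)) (S : Finset ℕ) (f : ℕ → Fin s) :
    (source p).real {x | ∀ i ∈ S, x i = f i} = ∏ i ∈ S, (p (f i)).toReal := by
  have : {x : ℕ → Fin s | ∀ i ∈ S, x i = f i} = Set.pi (S : Set ℕ) (fun i => {f i}) := by
    ext x
    simp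
  rw [this, Measure.real, source, Measure.infinitePi_pi _ (fun i _ => measurableSet_singleton _),
    ENNReal.toReal_prod]
  refine prod_congr rfl fun i _ => ?_
  rw [PMF.toMeasure_apply_singleton _ _ (measurableSet_singleton _)]

end Pool.Agent.Q211.Race
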