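import Pool.Agent.Q211.Race.Source

set_option autoImplicit false
open MeasureTheory ProbabilityTheory Finset
open scoped ENNReal

namespace Pool.Agent.Q211.Race

variable {s : ℕ}

/-- the event that `A` does not occur up to time `n` -/
def Ev {k : ℕ} (A : Fin k → Fin s) (n : ℕ) : Set (ℕ → Fin s) := {x | ∀ m ≤ n, ¬ occ A x m}

theorem occ_congr {k : ℕ} (A : Fin k → Fin s) (n : ℕ) (x y : ℕ → Fin s)
    (h : ∀ i < n, x i = y i) : occ A x n → occ A y n := by
  rintro ⟨h1, h2⟩
  refine ⟨h1, fun j => ?_⟩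
  rw [← h _ (by have := j.2; omega)]
  exact h2 j

theorem Ev_congr {k : ℕ} (A : Fin k → Fin s) (n : ℕ) (x y : ℕ → Fin s)
    (h : ∀ i < n, x i = y i) : x ∈ Ev A n → y ∈ Ev A n := by
  intro hx m hm ho
  exact hx m hm (occ_congr A m y x (fun i hi => (h i (by omega)).symm) ho)

theorem Ev_meas {k : ℕ} (A : Fin k → Fin s) (n : ℕ) : MeasurableSet (Ev A n) :=
  measurable_of_fin n _ (Ev_congr A n)

theorem surv_def {k : ℕ} (p : PMF (Fin s)) (A : Fin k → Fin s) (n : ℕ) :
    surv p A n = (source p).real (Ev A n) := rfl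

theorem Ev_anti {k : ℕ} (A : Fin k → Fin s) {m n : ℕ} (h : m ≤ n) : Ev A n ⊆ Ev A m :=
  fun _ hx j hj => hx j (hj.trans h)

/-- the event that `A` occurs for the first time at time `n + 1` -/
def Tv {k : ℕ} (A : Fin k → Fin s) (n : ℕ) : Set (ℕ → Fin s) := Ev A n \ Ev A (n + 1)

theorem Tv_meas {k : ℕ} (A : Fin k → Fin s) (n : ℕ) : MeasurableSet (Tv A n) :=
  (Ev_meas A n).diff (Ev_meas A (n + 1))

theorem Tv_prob {k : ℕ} (p : PMF (Fin s)) (A : Fin k → Fin s) (n : ℕ) :
    (source p).real (Tv A n) = surv p A n - surv p A (n + 1) := by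
  unfold Tv
  rw [measureReal_sdiff (Ev_anti A (Nat.le_succ n)) (Ev_meas A (n + 1))]
  rfl

theorem mem_Tv {k : ℕ} (A : Fin k → Fin s) (n : ℕ) (x : ℕ → Fin s) :
    x ∈ Tv A n ↔ x ∈ Ev A n ∧ occ A x (n + 1) := by
  unfold Tv
  constructor
  · rintro ⟨h1, h2⟩
    refine ⟨h1, ?_⟩
    by_contra h3
    apply h2
    intro m hm
    rcases Nat.lt_or_ge m (n + 1) with h | h
    · exact h1 m (by omega)
    · rw [show m = n + 1 by omega]
      exact h3
  · rintro ⟨h1, h2⟩
    exact ⟨h1, fun h => h (n + 1) le_rfl h2⟩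

theorem Tv_congr {k : ℕ} (A : Fin k → Fin s) (n : ℕ) (x y : ℕ → Fin s)
    (h : ∀ i < n + 1, x i = y i) : x ∈ Tv A n → y ∈ Tv A n := by
  rw [mem_Tv, mem_Tv]
  rintro ⟨h1, h2⟩
  exact ⟨Ev_congr A n x y (fun i hi => h i (by omega)) h1, occ_congr A (n + 1) x y h h2⟩

/-- the word `aba` -/
def wd (a b : Fin s) : Fin 3 → Fin s := ![a, b, a]

theorem occ_wd (a b : Fin s) (x : ℕ → Fin s) (n : ℕ) :
    occ (wd a b) x (n + 3) ↔ x n = a ∧ x (n + 1) = b ∧ x (n + 2) = a := by
  unfold occ wd
  rw [Fin.forall_fin_succ, Fin.forall_fin_succ, Fin.forall_fin_succ]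
  simp

theorem occ_wd_small (a b : Fin s) (x : ℕ → Fin s) (n : ℕ) (hn : n < 3) :
    ¬ occ (wd a b) x n := fun h => by
  have := h.1
  omega

theorem surv_small (p : PMF (Fin s)) (a b : Fin s) (n : ℕ) (hn : n < 3) :
    surv p (wd a b) n = 1 := by
  have : Ev (wd a b) n = Set.univ := by
    ext x
    simp only [Set.mem_univ, iff_true]
    intro m hm
    exact occ_wd_small a b x m (by omega)
  rw [surv_def, this]
  simp

theorem surv_rec (p : PMF (Fin s)) (a b : Fin s) (hab : a ≠ b) (n : ℕ) :
    surv p (wd a b) (n + 3) = surv p (wd a b) (n + 2) -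
      ((p a).toReal * (p b).toReal) * surv p (wd a b) (n + 1) -
      ((p a).toReal ^ 2 * (p b).toReal - (p a).toReal * (p b).toReal) * surv p (wd a b) n := by
  set A := wd a b with hA
  set Fs : Set (ℕ → Fin s) := {x | x n = a ∧ x (n + 1) = b ∧ x (n + 2) = a} with hF
  set Hs : Set (ℕ → Fin s) := {x | x (n + 1) = b ∧ x (n + 2) = a} with hH
  have hFp : (source p).real Fs = (p a).toReal ^ 2 * (p b).toReal := by
    have := prob_letters p {n, n + 1, n + 2} (fun i => if i = n + 1 then b else a)
    have e : {x : ℕ → Fin s | ∀ i ∈ ({n, n + 1, n + 2} : Finset ℕ),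
        x i = if i = n + 1 then b else a} = Fs := by
      ext x
      simp [hF]
    rw [e] at this
    rw [this, prod_insert (by simp), prod_insert (by simp), prod_singleton]
    simp
    ring
  have hHp : (source p).real Hs = (p a).toReal * (p b).toReal := by
    have := prob_letters p {n + 1, n + 2} (fun i => if i = n + 1 then b else a)
    have e : {x : ℕ → Fin s | ∀ i ∈ ({n + 1, n + 2} : Finset ℕ),
        x i = if i = n + 1 then b else a} = Hs := by
      ext x
      simp [hH]
    rw [e] at this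
    rw [this, prod_insert (by simp), prod_singleton]
    simp
    ring
  have h1 : (source p).real (Ev A n ∩ Fs) = surv p A n * ((p a).toReal ^ 2 * (p b).toReal) := by
    rw [indep_ev p n (n + 3) _ _ (Ev_congr A n), hFp]
    · rfl
    · rintro x y h ⟨hx1, hx2, hx3⟩
      exact ⟨(h n le_rfl (by omega)).symm.trans hx1,
        (h (n + 1) (by omega) (by omega)).symm.trans hx2,
        (h (n + 2) (by omega) (by omega)).symm.trans hx3⟩
  have h2 : (source p).real (Tv A n ∩ Hs) =
      (surv p A n - surv p A (n + 1)) * ((p a).toReal * (p b).toReal) := by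
    rw [indep_ev p (n + 1) (n + 3) _ _ (Tv_congr A n), hHp, Tv_prob]
    rintro x y h ⟨hx2, hx3⟩
    exact ⟨(h (n + 1) (by omega) (by omega)).symm.trans hx2,
        (h (n + 2) (by omega) (by omega)).symm.trans hx3⟩
  have h3 : Ev A n ∩ Fs = Tv A (n + 2) ∪ (Tv A n ∩ Hs) := by
    ext x
    constructor
    · rintro ⟨hx1, hx2, hx3, hx4⟩
      by_cases ho : occ A x (n + 1)
      · right
        exact ⟨(mem_Tv A n x).mpr ⟨hx1, ho⟩, hx3, hx4⟩
      · left
        rw [mem_Tv]
        refine ⟨?_, (occ_wd a b x n).mpr ⟨hx2, hx3, hx4⟩⟩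
        intro m hm
        rcases Nat.lt_or_ge n m with h | h
        · have : m = n + 1 ∨ m = n + 2 := by omega
          rcases this with rfl | rfl
          · exact ho
          · intro ho2
            rcases Nat.eq_zero_or_pos n with rfl | hn
            · exact occ_wd_small a b x _ (by omega) ho2
            · obtain ⟨k, rfl⟩ : ∃ k, n = k + 1 := ⟨n - 1, by omega⟩
              have := ((occ_wd a b x k).mp ho2).2.1
              rw [hx2] at this
              exact hab this
        · exact hx1 m h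
    · rintro (hx | ⟨hx, hx3, hx4⟩)
      · rw [mem_Tv] at hx
        refine ⟨Ev_anti A (by omega) hx.1, (occ_wd a b x n).mp hx.2⟩
      · rw [mem_Tv] at hx
        refine ⟨hx.1, ?_, hx3, hx4⟩
        have ho := hx.2
        have h3n : 3 ≤ n + 1 := ho.1
        obtain ⟨k, rfl⟩ : ∃ k, n = k + 2 := ⟨n - 2, by omega⟩
        exact ((occ_wd a b x k).mp ho).2.2
  have h4 : (source p).real (Ev A n ∩ Fs) =
      (surv p A (n + 2) - surv p A (n + 3)) + (source p).real (Tv A n ∩ Hs) := by
    rw [h3, measureReal_union]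
    · rw [Tv_prob]
    · rw [Set.disjoint_left]
      intro x hx hx2
      have h5 := ((mem_Tv A n x).mp hx2.1).2
      exact ((mem_Tv A (n + 2) x).mp hx).1 (n + 1) (by omega) h5
    · refine (Tv_meas A n).inter ?_
      exact measurable_of_fin (n + 3) _ (by
        rintro x y h ⟨hx2, hx3⟩
        exact ⟨(h (n + 1) (by omega)).symm.trans hx2,
          (h (n + 2) (by omega)).symm.trans hx3⟩)
  rw [h1, h2] at h4
  linarith

theorem surv_nonneg {k : ℕ} (p : PMF (Fin s)) (A : Fin k → Fin s) (n : ℕ) : 0 ≤ surv p A n :=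
  measureReal_nonneg

theorem surv_le_one {k : ℕ} (p : PMF (Fin s)) (A : Fin k → Fin s) (n : ℕ) : surv p A n ≤ 1 :=
  measureReal_le_one

theorem surv_anti {k : ℕ} (p : PMF (Fin s)) (A : Fin k → Fin s) (n : ℕ) :
    surv p A (n + 1) ≤ surv p A n :=
  measureReal_mono (Ev_anti A (Nat.le_succ n))

theorem surv_decay (p : PMF (Fin s)) (a b : Fin s) (n : ℕ) :
    surv p (wd a b) (n + 3) ≤
      (1 - (p a).toReal ^ 2 * (p b).toReal) * surv p (wd a b) n := by
  set A := wd a b with hA
  set Fs : Set (ℕ → Fin s) := {x | x n = a ∧ x (n + 1) = b ∧ x (n + 2) = a} with hF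
  have hFp : (source p).real Fs = (p a).toReal ^ 2 * (p b).toReal := by
    have := prob_letters p {n, n + 1, n + 2} (fun i => if i = n + 1 then b else a)
    have e : {x : ℕ → Fin s | ∀ i ∈ ({n, n + 1, n + 2} : Finset ℕ),
        x i = if i = n + 1 then b else a} = Fs := by
      ext x
      simp [hF]
    rw [e] at this
    rw [this, prod_insert (by simp), prod_insert (by simp), prod_singleton]
    simp
    ring
  have h1 : (source p).real (Ev A n ∩ Fs) = surv p A n * ((p a).toReal ^ 2 * (p b).toReal) := by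
    rw [indep_ev p n (n + 3) _ _ (Ev_congr A n), hFp]
    · rfl
    · rintro x y h ⟨hx1, hx2, hx3⟩
      exact ⟨(h n le_rfl (by omega)).symm.trans hx1,
        (h (n + 1) (by omega) (by omega)).symm.trans hx2,
        (h (n + 2) (by omega) (by omega)).symm.trans hx3⟩
  have hFm : MeasurableSet Fs := measurable_of_fin (n + 3) _ (by
        rintro x y h ⟨hx1, hx2, hx3⟩
        exact ⟨(h n (by omega)).symm.trans hx1, (h (n + 1) (by omega)).symm.trans hx2,
          (h (n + 2) (by omega)).symm.trans hx3⟩)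
  have h2 : (source p).real (Ev A (n + 3)) ≤ (source p).real (Ev A n \ Fs) := by
    refine measureReal_mono ?_
    intro x hx
    refine ⟨Ev_anti A (by omega) hx, fun hf => ?_⟩
    exact hx (n + 3) le_rfl ((occ_wd a b x n).mpr hf)
  have h3 := measureReal_inter_add_sdiff (μ := source p) (s := Ev A n) hFm
  rw [h1] at h3
  have e1 : surv p A (n + 3) = (source p).real (Ev A (n + 3)) := rfl
  have e2 : surv p A n = (source p).real (Ev A n) := rfl
  rw [e1]
  rw [← e2] at h3
  linarith

theorem surv_summable (p : PMF (Fin s)) (a b : Fin s) (ha : 0 < (p a).toReal)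
    (hb : 0 < (p b).toReal) : Summable (surv p (wd a b)) := by
  set P := (p a).toReal ^ 2 * (p b).toReal with hP
  have hPpos : 0 < P := by positivity
  refine summable_of_sum_range_le (c := 3 / P) (fun n => surv_nonneg _ _ n) fun N => ?_
  have h1 : ∑ i ∈ range (N + 3), surv p (wd a b) i =
      3 + ∑ i ∈ range N, surv p (wd a b) (i + 3) := by
    rw [add_comm N 3, sum_range_add]
    congr 1
    · rw [sum_range_succ, sum_range_succ, sum_range_succ, sum_range_zero,
        surv_small p a b 0 (by norm_num), surv_small p a b 1 (by norm_num),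
        surv_small p a b 2 (by norm_num)]
      norm_num
    · exact sum_congr rfl fun i _ => by rw [add_comm 3 i]
  have h2 : ∑ i ∈ range N, surv p (wd a b) (i + 3) ≤
      (1 - P) * ∑ i ∈ range N, surv p (wd a b) i := by
    rw [mul_sum]
    exact sum_le_sum fun i _ => surv_decay p a b i
  have h3 : ∑ i ∈ range N, surv p (wd a b) i ≤ ∑ i ∈ range (N + 3), surv p (wd a b) i :=
    sum_le_sum_of_subset_of_nonneg (range_mono (by omega)) fun i _ _ => surv_nonneg _ _ i
  rw [le_div_iff₀ hPpos]
  nlinarith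

end Pool.Agent.Q211.Race
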